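import Pool.Agent.T9h44.LS3.P1
import Pool.Agent.T9h44.LS2.H3

set_option autoImplicit false

/-!
# Mixtures of bumps
-/

namespace Pool.Agent.T9h44.LS3

open MeasureTheory Set
open scoped ENNReal
open Pool.Agent.TH280.LS Pool.Agent.TH89.F Pool.Agent.TH807.CL Pool.Agent.T9h44.LS2

/-- `φ` is a nonnegative function on `ℝ^m` and
`|φ^(η)| ≤ B ∏ (1 + a_i |η_i|) ^ (-β) ∫_{|y_i - c_i| ≤ a_i} φ` for all `η`. -/
def Bump (m : ℕ) (β B : ℝ) (c a : Fin m → ℝ) (φ : (Fin m → ℝ) → ℝ) : Prop :=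
  (∀ i, 0 ≤ a i) ∧ (∀ y, 0 ≤ φ y) ∧ ∀ η : Fin m → ℝ,
    ‖∫ y : Fin m → ℝ, Complex.exp (((2 * Real.pi * (-(∑ i, y i * η i)) : ℝ) : ℂ) * Complex.I) *
      ((φ y : ℝ) : ℂ)‖ ≤
      B * (∏ i, (1 + a i * |η i|) ^ (-β)) * ∫ y in {y : Fin m → ℝ | ∀ i, |y i - c i| ≤ a i}, φ y

/-- `g` is a mixture of bumps about a common point `c`. -/
def Mixture (m : ℕ) (β B : ℝ) (g : (Fin m → ℝ) → ℝ≥0∞) : Prop :=
  ∃ (Ω : Type) (_ : MeasurableSpace Ω) (μ : Measure Ω) (_ : SFinite μ)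
    (φ : Ω → (Fin m → ℝ) → ℝ) (a : Ω → Fin m → ℝ) (c : Fin m → ℝ),
    Measurable (fun q : Ω × (Fin m → ℝ) => φ q.1 q.2) ∧ (∀ ω, Bump m β B c (a ω) (φ ω)) ∧
    ∀ y, g y = ∫⁻ ω, ENNReal.ofReal (φ ω y) ∂μ

lemma Bump.mono {m : ℕ} {β β' B : ℝ} {c a : Fin m → ℝ} {φ : (Fin m → ℝ) → ℝ} (hB : 0 ≤ B)
    (h : Bump m β B c a φ) (hβ : β' ≤ β) : Bump m β' B c a φ := by
  obtain ⟨h1, h2, h3⟩ := h
  refine ⟨h1, h2, fun η => (h3 η).trans ?_⟩
  refine mul_le_mul_of_nonneg_right (mul_le_mul_of_nonneg_left ?_ hB)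
    (setIntegral_nonneg_of_ae_restrict (Filter.Eventually.of_forall h2))
  refine Finset.prod_le_prod (fun i _ => ?_) fun i _ => ?_
  · have : 0 ≤ a i * |η i| := mul_nonneg (h1 i) (abs_nonneg _)
    positivity
  · have : 0 ≤ a i * |η i| := mul_nonneg (h1 i) (abs_nonneg _)
    exact Real.rpow_le_rpow_of_exponent_le (by linarith) (by linarith)

lemma Kb_ge (β a η t : ℝ) (hβ : 0 < β) (ht : |t| ≤ a) :
    ENNReal.ofReal ((1 + a * |η|) ^ (-β)) ≤ Kb β t η := by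
  have ha : 0 ≤ a := (abs_nonneg t).trans ht
  have h0 : 0 ≤ |t| * |η| := by positivity
  have h1 : 0 < 1 + |t| * |η| := by positivity
  have h2 : 1 + |t| * |η| ≤ 1 + a * |η| := by
    have := mul_le_mul_of_nonneg_right ht (abs_nonneg η)
    linarith
  have h3 : (1 + a * |η|) ^ (-β) ≤ ((1 + |t| * |η|)⁻¹) ^ β := by
    rw [Real.rpow_neg (by positivity), ← Real.inv_rpow (by positivity)]
    exact Real.rpow_le_rpow (by positivity) (inv_anti₀ h1 h2) hβ.le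
  refine (ENNReal.ofReal_le_ofReal h3).trans ?_
  unfold Kb
  rw [← ENNReal.ofReal_rpow_of_nonneg (by positivity) hβ.le]
  refine ENNReal.rpow_le_rpow ?_ hβ.le
  unfold Kr
  refine le_min ?_ ?_
  · rw [← ENNReal.ofReal_one]
    refine ENNReal.ofReal_le_ofReal ?_
    exact inv_le_one_of_one_le₀ (by linarith)
  · rw [ENNReal.ofReal_inv_of_pos h1]
    exact ENNReal.inv_le_inv.2 (ENNReal.ofReal_le_ofReal (by linarith))

/-- the Fourier transform of a bump -/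
lemma bump_le {m : ℕ} {β B : ℝ} {c a : Fin m → ℝ} {φ : (Fin m → ℝ) → ℝ} (hβ : 0 < β) (hB : 0 ≤ B)
    (h : Bump m β B c a φ) (hi : Integrable φ) (η : Fin m → ℝ) :
    ‖∫ y : Fin m → ℝ, e (-(∑ i, y i * η i)) * ((φ y : ℝ) : ℂ)‖ₑ ≤
      ENNReal.ofReal B * ∫⁻ y : Fin m → ℝ, (∏ i, Kb β (y i - c i) (η i)) *
        ENNReal.ofReal (φ y) := by
  obtain ⟨h1, h2, h3⟩ := h
  have hP : 0 ≤ ∏ i, (1 + a i * |η i|) ^ (-β) := Finset.prod_nonneg fun i _ => by
    have : 0 ≤ a i * |η i| := mul_nonneg (h1 i) (abs_nonneg _)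
    positivity
  have hm : MeasurableSet {y : Fin m → ℝ | ∀ i, |y i - c i| ≤ a i} := by
    have : {y : Fin m → ℝ | ∀ i, |y i - c i| ≤ a i} = ⋂ i, {y : Fin m → ℝ | |y i - c i| ≤ a i} := by
      ext y
      simp only [Set.mem_ofPred_eq, mem_iInter]
    rw [this]
    exact MeasurableSet.iInter fun i => measurableSet_le (by fun_prop) measurable_const
  have h4 := h3 η
  rw [← ofReal_norm]
  unfold e
  refine (ENNReal.ofReal_le_ofReal h4).trans ?_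
  rw [mul_assoc, ENNReal.ofReal_mul hB]
  refine mul_le_mul_right ?_ _
  rw [ENNReal.ofReal_mul hP, ofReal_integral_eq_lintegral_ofReal hi.integrableOn
    (Filter.Eventually.of_forall h2), ← lintegral_const_mul' _ _ ENNReal.ofReal_ne_top]
  refine le_trans ?_ (setLIntegral_le_lintegral {y : Fin m → ℝ | ∀ i, |y i - c i| ≤ a i} _)
  refine setLIntegral_mono' hm fun y hy => mul_le_mul_left ?_ _
  rw [ENNReal.ofReal_prod_of_nonneg fun i _ => by
    have : 0 ≤ a i * |η i| := mul_nonneg (h1 i) (abs_nonneg _)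
    positivity]
  exact Finset.prod_le_prod' fun i _ => Kb_ge β (a i) (η i) (y i - c i) hβ (hy i)

lemma Mixture.measurable {m : ℕ} {β B : ℝ} {g : (Fin m → ℝ) → ℝ≥0∞} (hg : Mixture m β B g) :
    Measurable g := by
  obtain ⟨Ω, _, μ, _, φ, a, c, hφ, -, hg⟩ := hg
  have h1 : g = fun y => ∫⁻ ω, ENNReal.ofReal (φ ω y) ∂μ := funext hg
  rw [h1]
  exact Measurable.lintegral_prod_left (f := fun (ω : Ω) (y : Fin m → ℝ) =>
    ENNReal.ofReal (φ ω y)) hφ.ennreal_ofReal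

/-- the Fourier transform of a mixture of bumps -/
theorem mixture_bound {m : ℕ} {β B : ℝ} (hβ : 0 < β) (hB : 0 ≤ B) {Ω : Type} [MeasurableSpace Ω]
    (μ : Measure Ω) [SFinite μ] (φ : Ω → (Fin m → ℝ) → ℝ) (a : Ω → Fin m → ℝ) (c : Fin m → ℝ)
    (hφ : Measurable (fun q : Ω × (Fin m → ℝ) => φ q.1 q.2))
    (hb : ∀ ω, Bump m β B c (a ω) (φ ω))
    (hfin : ∫⁻ y, ∫⁻ ω, ENNReal.ofReal (φ ω y) ∂μ ≠ ∞) (η : Fin m → ℝ) :
    ‖ftm m (fun y => (((∫⁻ ω, ENNReal.ofReal (φ ω y) ∂μ).toReal : ℝ) : ℂ)) η‖ₑ ≤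
      ENNReal.ofReal B * ∫⁻ y : Fin m → ℝ, (∏ i, Kb β (y i - c i) (η i)) *
        ∫⁻ ω, ENNReal.ofReal (φ ω y) ∂μ := by
  have hnn : ∀ ω y, 0 ≤ φ ω y := fun ω y => (hb ω).2.1 y
  have hsl : ∀ y, Measurable fun ω => φ ω y := fun y =>
    hφ.comp (measurable_id.prodMk measurable_const)
  have hφe : ∀ q : Ω × (Fin m → ℝ), ‖φ q.1 q.2‖ₑ = ENNReal.ofReal (φ q.1 q.2) := fun q => by
    rw [← ofReal_norm, Real.norm_of_nonneg (hnn _ _)]
  have hfin2 : ∫⁻ q, ENNReal.ofReal (φ q.1 q.2) ∂(μ.prod (volume : Measure (Fin m → ℝ))) ≠ ∞ := by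
    rw [lintegral_prod_symm' _ hφ.ennreal_ofReal]
    exact hfin
  have hφi : Integrable (fun q : Ω × (Fin m → ℝ) => φ q.1 q.2)
      (μ.prod (volume : Measure (Fin m → ℝ))) := by
    refine ⟨hφ.aestronglyMeasurable, ?_⟩
    rw [hasFiniteIntegral_iff_enorm]
    simp only [hφe]
    exact lt_top_iff_ne_top.2 hfin2
  obtain ⟨F, hF⟩ : ∃ F : Ω × (Fin m → ℝ) → ℂ, F = fun q =>
      e (-(∑ i, q.2 i * η i)) * ((φ q.1 q.2 : ℝ) : ℂ) := ⟨_, rfl⟩
  have hFi : Integrable F (μ.prod volume) := by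
    rw [hF]
    refine Integrable.bdd_mul (c := 1) hφi.ofReal ?_ ?_
    · exact ((measurable_chm η).comp measurable_snd).aestronglyMeasurable
    · exact Filter.Eventually.of_forall fun q => (norm_e _).le
  have e1 : ftm m (fun y => (((∫⁻ ω, ENNReal.ofReal (φ ω y) ∂μ).toReal : ℝ) : ℂ)) η =
      ∫ y : Fin m → ℝ, ∫ ω, F (ω, y) ∂μ := by
    unfold ftm
    refine integral_congr_ae (Filter.Eventually.of_forall fun y => ?_)
    simp only [hF]
    rw [integral_const_mul, integral_complex_ofReal, integral_eq_lintegral_of_nonneg_ae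
      (Filter.Eventually.of_forall fun ω => hnn ω y) (hsl y).aestronglyMeasurable]
  have hae : ∀ᵐ ω ∂μ, Integrable (φ ω) := hφi.prod_right_ae
  rw [e1, integral_integral_swap (f := fun y ω => F (ω, y)) hFi.swap]
  refine (enorm_integral_le_lintegral_enorm _).trans ?_
  refine (lintegral_mono_ae (g := fun ω => ENNReal.ofReal B *
    ∫⁻ y : Fin m → ℝ, (∏ i, Kb β (y i - c i) (η i)) * ENNReal.ofReal (φ ω y)) ?_).trans
    (le_of_eq ?_)
  · filter_upwards [hae] with ω hω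
    simp only [hF]
    exact bump_le hβ hB (hb ω) hω η
  · rw [lintegral_const_mul' _ _ ENNReal.ofReal_ne_top]
    congr 1
    have hKm : Measurable (fun y : Fin m → ℝ => ∏ i, Kb β (y i - c i) (η i)) := by
      refine Finset.measurable_fun_prod _ fun i _ => ?_
      exact (measurable_Kb' β (η i)).comp (f := fun y : Fin m → ℝ => y i - c i) (by fun_prop)
    rw [lintegral_lintegral_swap]
    · refine lintegral_congr fun y => ?_
      rw [lintegral_const_mul _ (hsl y).ennreal_ofReal]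
    · exact ((hKm.comp measurable_snd).mul hφ.ennreal_ofReal).aemeasurable

/-- the reverse of Paley's inequality for mixtures of bumps with a common point -/
theorem mixture_paley (m : ℕ) (p β B : ℝ) (hp : 2 ≤ p) (hβ : 1 - 1 / p < β) (hB : 0 ≤ B) :
    ∃ C : ℝ, 0 < C ∧
    ∀ g : (Fin m → ℝ) → ℝ≥0∞, Mixture m β B g → ∫⁻ y, g y ≠ ∞ →
    ∫⁻ η : Fin m → ℝ, ENNReal.ofReal ((∏ i, |η i|) ^ (p - 2)) *
      ‖ftm m (fun y => (((g y).toReal : ℝ) : ℂ)) η‖ₑ ^ p ≤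
      ENNReal.ofReal C * ∫⁻ y : Fin m → ℝ, g y ^ p := by
  have hp0 : 0 < p := by linarith
  obtain ⟨β', hβ'⟩ : ∃ β', β' = min β 1 := ⟨_, rfl⟩
  have hb1 : 1 - 1 / p < β' := by
    rw [hβ']
    refine lt_min hβ ?_
    have : 0 < 1 / p := by positivity
    linarith
  have hb2 : β' ≤ 1 := hβ' ▸ min_le_right _ _
  have hb3 : β' ≤ β := hβ' ▸ min_le_left _ _
  have hb0 : 0 < β' := by
    have : 1 / p ≤ 1 / 2 := one_div_le_one_div_of_le (by norm_num) hp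
    linarith
  obtain ⟨C, hC, h⟩ := hardy_b m p β' hp hb1 hb2
  refine ⟨(B + 1) ^ p * C, by positivity, ?_⟩
  intro g hg hfin
  have hgm := hg.measurable
  obtain ⟨Ω, _, μ, _, φ, a, c, hφ, hb, hg⟩ := hg
  have hgeq : g = fun y => ∫⁻ ω, ENNReal.ofReal (φ ω y) ∂μ := funext hg
  have h1 : ∀ η : Fin m → ℝ, ‖ftm m (fun y => (((g y).toReal : ℝ) : ℂ)) η‖ₑ ≤
      ENNReal.ofReal B * ∫⁻ y : Fin m → ℝ, (∏ i, Kb β' (y i) (η i)) * g (y + c) := by
    intro η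
    have h2 := mixture_bound hb0 hB μ φ a c hφ (fun ω => (hb ω).mono hB hb3)
      (by rw [hgeq] at hfin; exact hfin) η
    simp only [← hg] at h2
    rw [← lintegral_add_right_eq_self (fun y : Fin m → ℝ =>
      (∏ i, Kb β' (y i - c i) (η i)) * g y) c] at h2
    simpa only [Pi.add_apply, add_sub_cancel_right] using h2
  have h2 := h (fun y => g (y + c)) (hgm.comp (measurable_id.add_const c)).aemeasurable
  calc ∫⁻ η : Fin m → ℝ, ENNReal.ofReal ((∏ i, |η i|) ^ (p - 2)) *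
        ‖ftm m (fun y => (((g y).toReal : ℝ) : ℂ)) η‖ₑ ^ p
      ≤ ∫⁻ η : Fin m → ℝ, ENNReal.ofReal B ^ p * (ENNReal.ofReal ((∏ i, |η i|) ^ (p - 2)) *
          (∫⁻ y : Fin m → ℝ, (∏ i, Kb β' (y i) (η i)) * g (y + c)) ^ p) := by
        refine lintegral_mono fun η => ?_
        refine (mul_le_mul_right (ENNReal.rpow_le_rpow (h1 η) hp0.le) _).trans (le_of_eq ?_)
        rw [ENNReal.mul_rpow_of_nonneg _ _ hp0.le]
        ring
    _ = ENNReal.ofReal B ^ p * ∫⁻ η : Fin m → ℝ, (ENNReal.ofReal ((∏ i, |η i|) ^ (p - 2)) *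
          (∫⁻ y : Fin m → ℝ, (∏ i, Kb β' (y i) (η i)) * g (y + c)) ^ p) :=
        lintegral_const_mul' _ _ (ENNReal.rpow_ne_top_of_nonneg hp0.le ENNReal.ofReal_ne_top)
    _ ≤ ENNReal.ofReal ((B + 1) ^ p) * (ENNReal.ofReal C * ∫⁻ y : Fin m → ℝ, g (y + c) ^ p) := by
        refine mul_le_mul' ?_ h2
        rw [ENNReal.ofReal_rpow_of_nonneg hB hp0.le]
        exact ENNReal.ofReal_le_ofReal (Real.rpow_le_rpow hB (by linarith) hp0.le)
    _ = _ := by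
        rw [← mul_assoc, ← ENNReal.ofReal_mul (by positivity)]
        congr 1
        exact lintegral_add_right_eq_self (fun y => g y ^ p) c

end Pool.Agent.T9h44.LS3
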