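import Mathlib

set_option autoImplicit false

/-!
# The Fourier transform of `x ^ k (1 - x ^ 2) ^ α` on `[-1, 1]`
-/

namespace Pool.Agent.T9h44.LS3

open MeasureTheory Set intervalIntegral

lemma ofRealI {f : ℝ → ℝ} {a b : ℝ} (h : IntervalIntegrable f volume a b) :
    IntervalIntegrable (fun x => ((f x : ℝ) : ℂ)) volume a b := ⟨h.1.ofReal, h.2.ofReal⟩

/-- the character -/
noncomputable def Ex (L x : ℝ) : ℂ := Complex.exp (((L * x : ℝ) : ℂ) * Complex.I)

lemma norm_Ex (L x : ℝ) : ‖Ex L x‖ = 1 := by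
  unfold Ex
  rw [Complex.norm_exp_ofReal_mul_I]

lemma Ex_neg (L x : ℝ) : Ex L (-x) = Ex (-L) x := by
  unfold Ex
  congr 3
  ring

lemma hasDerivAt_Ex (L x : ℝ) : HasDerivAt (Ex L) ((L : ℂ) * Complex.I * Ex L x) x := by
  have h1 : HasDerivAt (fun y : ℝ => ((L * y : ℝ) : ℂ) * Complex.I) ((L : ℂ) * Complex.I) x := by
    have h2 : HasDerivAt (fun y : ℝ => L * y) (L * 1) x := (hasDerivAt_id x).const_mul L
    have h3 := (h2.ofReal_comp).mul_const Complex.I
    simpa using h3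
  have h2 := h1.cexp
  unfold Ex
  convert h2 using 1
  ring

lemma continuous_Ex (L : ℝ) : Continuous (Ex L) := by
  unfold Ex
  fun_prop

/-- the antiderivative of the character -/
noncomputable def Av (L x : ℝ) : ℂ := Ex L x / ((L : ℂ) * Complex.I)

lemma hasDerivAt_Av (L x : ℝ) (hL : L ≠ 0) : HasDerivAt (Av L) (Ex L x) x := by
  have h1 : (L : ℂ) * Complex.I ≠ 0 := mul_ne_zero (Complex.ofReal_ne_zero.2 hL) Complex.I_ne_zero
  have h2 := (hasDerivAt_Ex L x).div_const ((L : ℂ) * Complex.I)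
  rwa [mul_div_cancel_left₀ _ h1] at h2

lemma norm_Av (L x : ℝ) : ‖Av L x‖ = 1 / |L| := by
  unfold Av
  rw [norm_div, norm_Ex, norm_mul, Complex.norm_I, mul_one, Complex.norm_real, Real.norm_eq_abs]

lemma continuous_Av (L : ℝ) : Continuous (Av L) := by
  unfold Av
  exact (continuous_Ex L).div_const _

/-- the weight -/
noncomputable def wt (α : ℝ) (k : ℕ) (x : ℝ) : ℝ := x ^ k * (1 - x ^ 2) ^ α

lemma wt_neg (α : ℝ) (k : ℕ) (x : ℝ) : wt α k (-x) = (-1) ^ k * wt α k x := by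
  unfold wt
  rw [neg_pow, neg_sq]
  ring

lemma hasDerivAt_wt (α : ℝ) (k : ℕ) (x : ℝ) (hx : 0 < 1 - x ^ 2) :
    HasDerivAt (wt α k) (k * wt (α - 1) (k - 1) x - (k + 2 * α) * wt (α - 1) (k + 1) x) x := by
  have h1 : HasDerivAt (fun y : ℝ => 1 - y ^ 2) (-(2 * x)) x := by
    have := (hasDerivAt_pow 2 x).const_sub 1
    simpa using this
  have h2 : HasDerivAt (fun y : ℝ => (1 - y ^ 2) ^ α) (-(2 * x) * α * (1 - x ^ 2) ^ (α - 1)) x :=
    h1.rpow_const (Or.inl hx.ne')
  have h3 := (hasDerivAt_pow k x).mul h2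
  have h4 : (1 - x ^ 2) ^ α = (1 - x ^ 2) ^ (α - 1) * (1 - x ^ 2) := by
    rw [← Real.rpow_add_one hx.ne']
    congr 1
    ring
  have h5 : (k : ℝ) * wt (α - 1) (k - 1) x - (k + 2 * α) * wt (α - 1) (k + 1) x =
      (k : ℝ) * x ^ (k - 1) * (1 - x ^ 2) ^ α + x ^ k * (-(2 * x) * α * (1 - x ^ 2) ^ (α - 1)) := by
    unfold wt
    rw [h4]
    rcases Nat.eq_zero_or_pos k with hk | hk
    · subst hk
      simp only [Nat.cast_zero]
      ring
    · obtain ⟨j, rfl⟩ : ∃ j, k = j + 1 := ⟨k - 1, by omega⟩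
      simp only [Nat.add_sub_cancel]
      ring
  rw [h5]
  exact h3

lemma intervalIntegrable_wt0 (α : ℝ) (hα : -1 < α) :
    IntervalIntegrable (fun x : ℝ => (1 - x ^ 2) ^ α) volume (-1) 1 := by
  have h0 : IntervalIntegrable (fun x : ℝ => (1 - x ^ 2) ^ α) volume 0 1 := by
    have h1 : IntervalIntegrable (fun x : ℝ => (1 - x) ^ α) volume 0 1 := by
      have := (intervalIntegrable_rpow' (a := 0) (b := 1) hα).comp_sub_left 1
      simp only [sub_zero, sub_self] at this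
      exact this.symm
    have h2 : ContinuousOn (fun x : ℝ => (1 + x) ^ α) (uIcc 0 1) := by
      rw [uIcc_of_le zero_le_one]
      refine ContinuousOn.rpow_const (by fun_prop) fun x hx => Or.inl ?_
      have := hx.1
      positivity
    refine (h1.mul_continuousOn h2).congr fun x hx => ?_
    rw [uIoc_of_le zero_le_one] at hx
    rw [← Real.mul_rpow (by linarith [hx.2]) (by linarith [hx.1])]
    congr 1
    ring
  have h1 : IntervalIntegrable (fun x : ℝ => (1 - x ^ 2) ^ α) volume (-1) 0 := by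
    have := (IntervalIntegrable.iff_comp_neg).1 h0
    simp only [neg_zero, neg_sq] at this
    exact this.symm
  exact h1.trans h0

lemma intervalIntegrable_wt (α : ℝ) (k : ℕ) (hα : -1 < α) (a b : ℝ) (ha : -1 ≤ a) (hab : a ≤ b)
    (hb : b ≤ 1) : IntervalIntegrable (wt α k) volume a b := by
  have h1 := (intervalIntegrable_wt0 α hα).mono_set (c := a) (d := b) (by
    rw [uIcc_of_le (by norm_num : (-1 : ℝ) ≤ 1), uIcc_of_le hab]
    exact Icc_subset_Icc ha hb)
  exact h1.continuousOn_mul (by fun_prop)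

lemma intervalIntegrable_wtE (α : ℝ) (k : ℕ) (L : ℝ) (hα : -1 < α) (a b : ℝ) (ha : -1 ≤ a)
    (hab : a ≤ b) (hb : b ≤ 1) :
    IntervalIntegrable (fun x => ((wt α k x : ℝ) : ℂ) * Ex L x) volume a b :=
  (ofRealI (intervalIntegrable_wt α k hα a b ha hab hb)).mul_continuousOn
    (continuous_Ex L).continuousOn

/-- the integral -/
noncomputable def Mi (α : ℝ) (k : ℕ) (L : ℝ) : ℂ := ∫ x in (-1 : ℝ)..1, ((wt α k x : ℝ) : ℂ) * Ex L x

lemma half (α : ℝ) (k : ℕ) (h1 : -1 < α) (h2 : α ≤ 0) (L : ℝ) (hL : 1 ≤ |L|) :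
    ‖∫ x in (0 : ℝ)..1, ((wt α k x : ℝ) : ℂ) * Ex L x‖ ≤ (2 + 1 / (α + 1)) * |L| ^ (-(α + 1)) := by
  have hL0 : 0 < |L| := by linarith
  have hLne : L ≠ 0 := abs_pos.1 hL0
  obtain ⟨δ, hδ⟩ : ∃ δ, δ = 1 / |L| := ⟨_, rfl⟩
  have hδ0 : 0 < δ := by rw [hδ]; positivity
  have hδ1 : δ ≤ 1 := by
    rw [hδ, div_le_one hL0]
    exact hL
  obtain ⟨a, ha⟩ : ∃ a, a = 1 - δ := ⟨_, rfl⟩
  have ha0 : 0 ≤ a := by linarith
  have ha1 : a < 1 := by linarith
  have hδα : |L| ^ (-(α + 1)) = δ ^ (α + 1) := by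
    rw [hδ, one_div, Real.inv_rpow hL0.le, Real.rpow_neg hL0.le]
  have hpos : ∀ x ∈ Icc 0 a, 0 < 1 - x ^ 2 := by
    intro x hx
    have h3 : x < 1 := hx.2.trans_lt ha1
    nlinarith [hx.1]
  rw [← integral_add_adjacent_intervals
    (intervalIntegrable_wtE α k L h1 0 a (by linarith) ha0 ha1.le)
    (intervalIntegrable_wtE α k L h1 a 1 (by linarith) ha1.le le_rfl)]
  -- the part near the endpoint
  have e2 : ‖∫ x in a..1, ((wt α k x : ℝ) : ℂ) * Ex L x‖ ≤ δ ^ (α + 1) / (α + 1) := by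
    have h3 : IntervalIntegrable (fun x : ℝ => (1 - x) ^ α) volume a 1 := by
      have := (intervalIntegrable_rpow' (a := 0) (b := 1 - a) h1).comp_sub_left 1
      simp only [sub_zero, sub_sub_cancel] at this
      exact this.symm
    have h4 : ∫ x in a..1, (1 - x) ^ α = δ ^ (α + 1) / (α + 1) := by
      have h5 := intervalIntegral.integral_comp_sub_left (fun x : ℝ => x ^ α) (a := a) (b := 1) 1
      simp only [sub_self] at h5
      rw [h5, integral_rpow (Or.inl h1), ha, sub_sub_cancel, Real.zero_rpow (by linarith), sub_zero]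
    rw [← h4]
    refine norm_integral_le_of_norm_le ha1.le ?_ h3
    refine Filter.Eventually.of_forall fun x hx => ?_
    have hx0 : 0 ≤ x := ha0.trans hx.1.le
    have hx1 : x ≤ 1 := hx.2
    rw [norm_mul, norm_Ex, mul_one, Complex.norm_real, Real.norm_eq_abs]
    unfold wt
    have h6 : 0 ≤ 1 - x ^ 2 := by nlinarith
    rw [abs_of_nonneg (by positivity)]
    rcases eq_or_lt_of_le hx1 with h7 | h7
    · rw [h7]
      norm_num
    · calc x ^ k * (1 - x ^ 2) ^ α ≤ 1 * (1 - x ^ 2) ^ α :=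
            mul_le_mul_of_nonneg_right (pow_le_one₀ hx0 hx1) (by positivity)
        _ = (1 - x ^ 2) ^ α := one_mul _
        _ ≤ (1 - x) ^ α :=
            Real.rpow_le_rpow_of_nonpos (by linarith) (by nlinarith) h2
  -- the main part
  have e1 : ‖∫ x in (0 : ℝ)..a, ((wt α k x : ℝ) : ℂ) * Ex L x‖ ≤ 2 * δ ^ (α + 1) := by
    obtain ⟨w', hw'⟩ : ∃ w' : ℝ → ℝ, w' = fun x =>
      k * wt (α - 1) (k - 1) x - (k + 2 * α) * wt (α - 1) (k + 1) x := ⟨_, rfl⟩
    have hd : ∀ x ∈ Icc 0 a, HasDerivAt (wt α k) (w' x) x := by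
      intro x hx
      rw [hw']
      exact hasDerivAt_wt α k x (hpos x hx)
    have hcw : ∀ (β : ℝ) (j : ℕ), ContinuousOn (wt β j) (Icc 0 a) := by
      intro β j
      unfold wt
      refine ContinuousOn.mul (by fun_prop) ?_
      exact ContinuousOn.rpow_const (by fun_prop) fun x hx => Or.inl (hpos x hx).ne'
    have hcw' : ContinuousOn w' (Icc 0 a) := by
      rw [hw']
      exact ((hcw _ _).const_mul _).sub ((hcw _ _).const_mul _)
    have hw'i : IntervalIntegrable w' volume 0 a := by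
      apply ContinuousOn.intervalIntegrable
      rwa [uIcc_of_le ha0]
    have hnn : ∀ x ∈ Icc 0 a, 0 ≤ w' x := by
      intro x hx
      have h3 : (w' x) = k * (x ^ (k - 1) * (1 - x ^ 2) ^ α) +
          (2 * (-α)) * (x ^ (k + 1) * (1 - x ^ 2) ^ (α - 1)) := by
        have h4 : (1 - x ^ 2) ^ α = (1 - x ^ 2) ^ (α - 1) * (1 - x ^ 2) := by
          rw [← Real.rpow_add_one (hpos x hx).ne']
          congr 1
          ring
        rw [hw', h4]
        unfold wt
        rcases Nat.eq_zero_or_pos k with hk | hk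
        · subst hk
          simp only [Nat.cast_zero]
          ring
        · obtain ⟨j, rfl⟩ : ∃ j, k = j + 1 := ⟨k - 1, by omega⟩
          simp only [Nat.add_sub_cancel]
          ring
      rw [h3]
      have h4 := (hpos x hx).le
      have h5 := hx.1
      have h6 : 0 ≤ 2 * (-α) := by linarith
      positivity
    have hibp := integral_mul_deriv_eq_deriv_mul (a := 0) (b := a)
      (u := fun x => ((wt α k x : ℝ) : ℂ)) (v := Av L) (u' := fun x => ((w' x : ℝ) : ℂ))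
      (v' := fun x => Ex L x) (fun x hx => by
        rw [uIcc_of_le ha0] at hx
        exact (hd x hx).ofReal_comp) (fun x _ => hasDerivAt_Av L x hLne) (ofRealI hw'i)
      ((continuous_Ex L).intervalIntegrable _ _)
    rw [hibp]
    have h3 : ‖∫ x in (0 : ℝ)..a, ((w' x : ℝ) : ℂ) * Av L x‖ ≤
        (wt α k a - wt α k 0) * (1 / |L|) := by
      have h4 : ∫ x in (0 : ℝ)..a, w' x = wt α k a - wt α k 0 :=
        integral_eq_sub_of_hasDerivAt (fun x hx => by
          rw [uIcc_of_le ha0] at hx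
          exact hd x hx) hw'i
      rw [← h4, ← intervalIntegral.integral_mul_const]
      refine norm_integral_le_of_norm_le ha0 ?_ (hw'i.mul_const _)
      refine Filter.Eventually.of_forall fun x hx => ?_
      rw [norm_mul, norm_Av, Complex.norm_real, Real.norm_eq_abs,
        abs_of_nonneg (hnn x ⟨hx.1.le, hx.2⟩)]
    have h5 : 0 ≤ wt α k 0 := by
      unfold wt
      have : (0 : ℝ) ≤ 1 - 0 ^ 2 := by norm_num
      positivity
    have h6 : 0 ≤ wt α k a := by
      unfold wt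
      have := (hpos a ⟨ha0, le_rfl⟩).le
      positivity
    have h7 : wt α k a ≤ δ ^ α := by
      unfold wt
      have h8 : δ ≤ 1 - a ^ 2 := by
        rw [ha]
        nlinarith
      calc a ^ k * (1 - a ^ 2) ^ α ≤ 1 * (1 - a ^ 2) ^ α :=
            mul_le_mul_of_nonneg_right (pow_le_one₀ ha0 ha1.le)
              (Real.rpow_nonneg (hpos a ⟨ha0, le_rfl⟩).le _)
        _ = (1 - a ^ 2) ^ α := one_mul _
        _ ≤ δ ^ α := Real.rpow_le_rpow_of_nonpos hδ0 h8 h2
    have h8 : ‖((wt α k a : ℝ) : ℂ) * Av L a - ((wt α k 0 : ℝ) : ℂ) * Av L 0‖ ≤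
        (wt α k a + wt α k 0) * (1 / |L|) := by
      refine (norm_sub_le _ _).trans (le_of_eq ?_)
      rw [norm_mul, norm_mul, norm_Av, norm_Av, Complex.norm_real, Complex.norm_real,
        Real.norm_of_nonneg h5, Real.norm_of_nonneg h6]
      ring
    refine (norm_sub_le _ _).trans ((add_le_add h8 h3).trans ?_)
    rw [← hδ, Real.rpow_add_one hδ0.ne']
    nlinarith
  refine (norm_add_le _ _).trans ((add_le_add e1 e2).trans (le_of_eq ?_))
  rw [hδα]
  ring

lemma base (α : ℝ) (k : ℕ) (h1 : -1 < α) (h2 : α ≤ 0) : ∃ C : ℝ, 0 < C ∧ ∀ L : ℝ, 1 ≤ |L| →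
    ‖Mi α k L‖ ≤ C * |L| ^ (-(α + 1)) := by
  have h3 : 0 < α + 1 := by linarith
  refine ⟨2 * (2 + 1 / (α + 1)), by positivity, ?_⟩
  intro L hL
  unfold Mi
  rw [← integral_add_adjacent_intervals
    (intervalIntegrable_wtE α k L h1 (-1) 0 le_rfl (by norm_num) (by norm_num))
    (intervalIntegrable_wtE α k L h1 0 1 (by norm_num) (by norm_num) le_rfl)]
  have e1 : ∫ x in (-1 : ℝ)..0, ((wt α k x : ℝ) : ℂ) * Ex L x =
      (-1) ^ k * ∫ x in (0 : ℝ)..1, ((wt α k x : ℝ) : ℂ) * Ex (-L) x := by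
    have h4 := intervalIntegral.integral_comp_neg (a := 0) (b := 1)
      (fun x => ((wt α k x : ℝ) : ℂ) * Ex L x)
    rw [neg_zero] at h4
    rw [← h4, ← intervalIntegral.integral_const_mul]
    refine integral_congr fun x _ => ?_
    rw [wt_neg, Ex_neg]
    push_cast
    ring
  have e2 := half α k h1 h2 L hL
  have e3 := half α k h1 h2 (-L) (by rwa [abs_neg])
  rw [abs_neg] at e3
  refine (norm_add_le _ _).trans ?_
  rw [e1, norm_mul, norm_pow, norm_neg, norm_one, one_pow, one_mul]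
  linarith

lemma step (α : ℝ) (k : ℕ) (hα : 0 < α) (L : ℝ) (hL : L ≠ 0) :
    ‖Mi α k L‖ ≤ (1 / |L|) * (k * ‖Mi (α - 1) (k - 1) L‖ + (k + 2 * α) * ‖Mi (α - 1) (k + 1) L‖) := by
  have hle : (-1 : ℝ) ≤ 1 := by norm_num
  have hc : ContinuousOn (fun x => ((wt α k x : ℝ) : ℂ)) (uIcc (-1) 1) := by
    refine Continuous.continuousOn ?_
    refine Complex.continuous_ofReal.comp ?_
    unfold wt
    refine Continuous.mul (by fun_prop) ?_
    exact Continuous.rpow_const (by fun_prop) fun x => Or.inr hα.le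
  have hi1 := intervalIntegrable_wt (α - 1) (k - 1) (by linarith) (-1) 1 le_rfl hle le_rfl
  have hi2 := intervalIntegrable_wt (α - 1) (k + 1) (by linarith) (-1) 1 le_rfl hle le_rfl
  have hwi : IntervalIntegrable (fun x => k * wt (α - 1) (k - 1) x -
      (k + 2 * α) * wt (α - 1) (k + 1) x) volume (-1) 1 :=
    (hi1.const_mul _).sub (hi2.const_mul _)
  have hibp := integral_mul_deriv_eq_deriv_mul_of_hasDerivAt (a := (-1 : ℝ)) (b := 1)
    (u := fun x => ((wt α k x : ℝ) : ℂ)) (v := Av L)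
    (u' := fun x => ((k * wt (α - 1) (k - 1) x - (k + 2 * α) * wt (α - 1) (k + 1) x : ℝ) : ℂ))
    (v' := fun x => Ex L x) hc (continuous_Av L).continuousOn (fun x hx => by
      rw [min_eq_left hle, max_eq_right hle] at hx
      refine (hasDerivAt_wt α k x ?_).ofReal_comp
      nlinarith [hx.1, hx.2]) (fun x _ => hasDerivAt_Av L x hL) (ofRealI hwi)
    ((continuous_Ex L).intervalIntegrable _ _)
  have h0 : wt α k 1 = 0 ∧ wt α k (-1) = 0 := by
    unfold wt
    constructor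
    · rw [show (1 : ℝ) - 1 ^ 2 = 0 by norm_num, Real.zero_rpow hα.ne', mul_zero]
    · rw [show (1 : ℝ) - (-1) ^ 2 = 0 by norm_num, Real.zero_rpow hα.ne', mul_zero]
  have h3 : ∫ x in (-1 : ℝ)..1, ((k * wt (α - 1) (k - 1) x - (k + 2 * α) * wt (α - 1) (k + 1) x : ℝ) :
      ℂ) * Av L x = (k * Mi (α - 1) (k - 1) L - (k + 2 * α) * Mi (α - 1) (k + 1) L) /
        ((L : ℂ) * Complex.I) := by
    unfold Mi
    rw [← intervalIntegral.integral_const_mul, ← intervalIntegral.integral_const_mul,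
      ← intervalIntegral.integral_sub, ← intervalIntegral.integral_div]
    · refine integral_congr fun x _ => ?_
      unfold Av
      push_cast
      ring
    · exact (intervalIntegrable_wtE _ _ L (by linarith) (-1) 1 le_rfl hle le_rfl).const_mul _
    · exact (intervalIntegrable_wtE _ _ L (by linarith) (-1) 1 le_rfl hle le_rfl).const_mul _
  have h4 : Mi α k L = -((k * Mi (α - 1) (k - 1) L - (k + 2 * α) * Mi (α - 1) (k + 1) L) /
        ((L : ℂ) * Complex.I)) := by
    rw [← h3]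
    unfold Mi
    rw [hibp, h0.1, h0.2]
    push_cast
    ring
  rw [h4, norm_neg, norm_div, norm_mul, Complex.norm_I, mul_one, Complex.norm_real,
    Real.norm_eq_abs, one_div, div_eq_inv_mul]
  refine mul_le_mul_of_nonneg_left ?_ (by positivity)
  refine (norm_sub_le _ _).trans (le_of_eq ?_)
  rw [norm_mul, norm_mul, Complex.norm_natCast]
  congr 2
  have : ((k : ℂ) + 2 * (α : ℂ)) = ((k + 2 * α : ℝ) : ℂ) := by push_cast; ring
  rw [this, Complex.norm_real, Real.norm_of_nonneg (by positivity)]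

lemma decay (n : ℕ) : ∀ k : ℕ, ∃ C : ℝ, 0 < C ∧ ∀ L : ℝ, 1 ≤ |L| →
    ‖Mi (n / 2) k L‖ ≤ C * |L| ^ (-((n : ℝ) / 2 + 1)) := by
  have main : ∀ (α : ℝ), 0 < α → (∀ k : ℕ, ∃ C : ℝ, 0 < C ∧ ∀ L : ℝ, 1 ≤ |L| →
      ‖Mi (α - 1) k L‖ ≤ C * |L| ^ (-(α - 1 + 1))) → ∀ k : ℕ, ∃ C : ℝ, 0 < C ∧ ∀ L : ℝ, 1 ≤ |L| →
      ‖Mi α k L‖ ≤ C * |L| ^ (-(α + 1)) := by
    intro α hα h k
    obtain ⟨C1, hC1, h1⟩ := h (k - 1)
    obtain ⟨C2, hC2, h2⟩ := h (k + 1)
    refine ⟨k * C1 + (k + 2 * α) * C2, by positivity, ?_⟩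
    intro L hL
    have hL0 : 0 < |L| := by linarith
    refine (step α k hα L (abs_pos.1 hL0)).trans ?_
    have h3 : |L| ^ (-(α + 1)) = (1 / |L|) * |L| ^ (-(α - 1 + 1)) := by
      rw [one_div, ← Real.rpow_neg_one, ← Real.rpow_add hL0]
      congr 1
      ring
    rw [h3]
    have h4 := mul_le_mul_of_nonneg_left (h1 L hL) (Nat.cast_nonneg (α := ℝ) k)
    have h5 := mul_le_mul_of_nonneg_left (h2 L hL) (by positivity : 0 ≤ (k : ℝ) + 2 * α)
    calc (1 / |L|) * (k * ‖Mi (α - 1) (k - 1) L‖ + (k + 2 * α) * ‖Mi (α - 1) (k + 1) L‖)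
        ≤ (1 / |L|) * (k * (C1 * |L| ^ (-(α - 1 + 1))) +
            (k + 2 * α) * (C2 * |L| ^ (-(α - 1 + 1)))) :=
          mul_le_mul_of_nonneg_left (add_le_add h4 h5) (by positivity)
      _ = _ := by ring
  induction n using Nat.twoStepInduction with
  | zero =>
    intro k
    have := base 0 k (by norm_num) le_rfl
    simpa using this
  | one =>
    intro k
    have := main (1 / 2) (by norm_num) (fun k => base _ k (by norm_num) (by norm_num)) k
    simpa using this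
  | more n ih _ =>
    intro k
    have h1 := main ((n : ℝ) / 2 + 1) (by positivity) (fun k => by
      rw [add_sub_cancel_right]
      exact ih k) k
    have h2 : ((n + 2 : ℕ) : ℝ) / 2 = (n : ℝ) / 2 + 1 := by
      push_cast
      ring
    rw [h2]
    exact h1

end Pool.Agent.T9h44.LS3
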