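import Pool.Agent.T9h44.LS3.P3
import Pool.Agent.T9h44.LS3.P2
import Pool.Agent.TH280.LS.K3

set_option autoImplicit false

/-!
# The Fourier transform of `(1 - |y| ^ 2) ^ κ` on the unit ball
-/

namespace Pool.Agent.T9h44.LS3

open MeasureTheory Set
open scoped ENNReal RealInnerProductSpace Pointwise
open Pool.Agent.TH280.LS

/-- `(1 - t) ^ κ` for `t ≤ 1` and `0` for `t > 1` -/
noncomputable def qq (κ : ℕ) (t : ℝ) : ℝ := if t ≤ 1 then (1 - t) ^ κ else 0

lemma qq_nonneg (κ : ℕ) (t : ℝ) : 0 ≤ qq κ t := by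
  unfold qq
  split_ifs with h
  · exact pow_nonneg (by linarith) _
  · exact le_rfl

lemma qq_le_one (κ : ℕ) (t : ℝ) (ht : 0 ≤ t) : qq κ t ≤ 1 := by
  unfold qq
  split_ifs with h
  · exact pow_le_one₀ (by linarith) (by linarith)
  · exact zero_le_one

lemma qq_of_gt (κ : ℕ) (t : ℝ) (ht : 1 < t) : qq κ t = 0 := by
  unfold qq
  rw [if_neg (not_le.2 ht)]

@[fun_prop]
lemma measurable_qq (κ : ℕ) : Measurable (qq κ) := by
  unfold qq
  exact Measurable.ite measurableSet_Iic (by fun_prop) measurable_const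

lemma qq_scale (κ : ℕ) (a s : ℝ) (ha : 0 < 1 - a) : qq κ (a + s) = (1 - a) ^ κ * qq κ (s / (1 - a)) := by
  unfold qq
  have h1 : a + s ≤ 1 ↔ s / (1 - a) ≤ 1 := by
    rw [div_le_one ha]
    constructor <;> intro h <;> linarith
  by_cases h : a + s ≤ 1
  · rw [if_pos h, if_pos (h1.1 h), ← mul_pow]
    congr 1
    field_simp
    ring
  · rw [if_neg h, if_neg fun h2 => h (h1.2 h2), mul_zero]

/-- the unit ball -/
def Bl (m : ℕ) : Set (Fin m → ℝ) := {y | ∑ i, y i ^ 2 ≤ 1}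

lemma measurableSet_Bl (m : ℕ) : MeasurableSet (Bl m) :=
  measurableSet_le (by fun_prop) measurable_const

lemma Bl_finite (m : ℕ) : volume (Bl m) < ∞ := by
  have h1 : Bl m ⊆ Metric.closedBall 0 1 := by
    intro y hy
    rw [mem_closedBall_zero_iff, pi_norm_le_iff_of_nonneg zero_le_one]
    intro i
    have h2 : y i ^ 2 ≤ ∑ j, y j ^ 2 :=
      Finset.single_le_sum (f := fun j => y j ^ 2) (fun j _ => sq_nonneg _) (Finset.mem_univ i)
    have h3 : y i ^ 2 ≤ 1 := h2.trans hy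
    rw [Real.norm_eq_abs, ← sq_le_one_iff_abs_le_one]
    exact h3
  exact (measure_mono h1).trans_lt measure_closedBall_lt_top

/-- the profile -/
noncomputable def bp (κ m : ℕ) (y : Fin m → ℝ) : ℝ := qq κ (∑ i, y i ^ 2)

lemma measurable_bp (κ m : ℕ) : Measurable (bp κ m) := by
  unfold bp
  exact (measurable_qq κ).comp (by fun_prop)

lemma bp_le (κ m : ℕ) (y : Fin m → ℝ) : bp κ m y ≤ (Bl m).indicator (fun _ => (1 : ℝ)) y := by
  by_cases hy : y ∈ Bl m
  · rw [indicator_of_mem hy]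
    exact qq_le_one _ _ (Finset.sum_nonneg fun i _ => sq_nonneg _)
  · rw [indicator_of_notMem hy]
    refine (qq_of_gt _ _ ?_).le
    exact not_le.1 hy

lemma bp_nonneg (κ m : ℕ) (y : Fin m → ℝ) : 0 ≤ bp κ m y := qq_nonneg _ _

lemma integrable_bp (κ m : ℕ) : Integrable (bp κ m) := by
  have h1 : Integrable ((Bl m).indicator fun _ => (1 : ℝ)) := by
    rw [integrable_indicator_iff (measurableSet_Bl m)]
    exact integrableOn_const (Bl_finite m).ne
  refine h1.mono' (measurable_bp κ m).aestronglyMeasurable (Filter.Eventually.of_forall fun y => ?_)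
  rw [Real.norm_of_nonneg (bp_nonneg κ m y)]
  exact bp_le κ m y

/-- the mass -/
noncomputable def Vk (κ m : ℕ) : ℝ := ∫ y : Fin m → ℝ, bp κ m y

lemma Vk_pos (κ m : ℕ) : 0 < Vk κ m := by
  unfold Vk
  rw [integral_pos_iff_support_of_nonneg (bp_nonneg κ m) (integrable_bp κ m)]
  have h1 : Metric.ball (0 : Fin m → ℝ) (1 / (m + 1)) ⊆ Function.support (bp κ m) := by
    intro y hy
    rw [mem_ball_zero_iff, pi_norm_lt_iff (by positivity)] at hy
    have h2 : ∀ i, y i ^ 2 ≤ 1 / (m + 1) := by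
      intro i
      have h3 := hy i
      rw [Real.norm_eq_abs] at h3
      have h4 : y i ^ 2 = |y i| * |y i| := by rw [← sq, sq_abs]
      have h5 : (1 : ℝ) / (m + 1) ≤ 1 := by
        rw [div_le_one (by positivity)]
        have : (0 : ℝ) ≤ m := Nat.cast_nonneg m
        linarith
      rw [h4]
      nlinarith [abs_nonneg (y i)]
    have h6 : ∑ i, y i ^ 2 < 1 := by
      calc ∑ i, y i ^ 2 ≤ ∑ _i : Fin m, (1 : ℝ) / (m + 1) := Finset.sum_le_sum fun i _ => h2 i
        _ = m / (m + 1) := by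
          rw [Finset.sum_const, Finset.card_univ, Fintype.card_fin, nsmul_eq_mul]
          ring
        _ < 1 := by
          rw [div_lt_one (by positivity)]
          linarith
    rw [Function.mem_support]
    unfold bp qq
    rw [if_pos h6.le]
    exact pow_ne_zero _ (by linarith)
  exact (Metric.measure_ball_pos _ _ (by positivity)).trans_le (measure_mono h1)

lemma int_sq (κ n : ℕ) (w : ℝ) (hw : 0 < w) : ∫ y : Fin n → ℝ, qq κ ((∑ i, y i ^ 2) / w) =
    w ^ ((n : ℝ) / 2) * Vk κ n := by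
  have h0 : 0 < Real.sqrt w := Real.sqrt_pos.2 hw
  have h1 := Measure.integral_comp_smul (volume : Measure (Fin n → ℝ)) (bp κ n) (Real.sqrt w)⁻¹
  have h2 : ∀ y : Fin n → ℝ, bp κ n ((Real.sqrt w)⁻¹ • y) = qq κ ((∑ i, y i ^ 2) / w) := by
    intro y
    unfold bp
    congr 1
    simp only [Pi.smul_apply, smul_eq_mul, mul_pow]
    rw [← Finset.mul_sum, inv_pow, Real.sq_sqrt hw.le, inv_mul_eq_div]
  simp only [h2] at h1
  rw [h1, Module.finrank_fin_fun, smul_eq_mul, inv_pow, inv_inv, abs_of_pos (by positivity)]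
  unfold Vk
  congr 1
  rw [Real.sqrt_eq_rpow, ← Real.rpow_natCast, ← Real.rpow_mul hw.le]
  congr 1
  ring

/-- the Fourier transform of the profile -/
noncomputable def Jb (κ m : ℕ) (η : Fin m → ℝ) : ℂ :=
  ∫ y : Fin m → ℝ, e (-(∑ i, y i * η i)) * ((bp κ m y : ℝ) : ℂ)

lemma norm_Jb_le (κ m : ℕ) (η : Fin m → ℝ) : ‖Jb κ m η‖ ≤ Vk κ m := by
  unfold Jb Vk
  refine (norm_integral_le_integral_norm _).trans (le_of_eq ?_)
  refine integral_congr_ae (Filter.Eventually.of_forall fun y => ?_)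
  simp only
  rw [norm_mul, norm_e, one_mul, Complex.norm_real, Real.norm_of_nonneg (bp_nonneg κ m y)]

lemma exists_rot (n : ℕ) (w : EuclideanSpace ℝ (Fin (n + 1))) (hw : w ≠ 0) :
    ∃ T : EuclideanSpace ℝ (Fin (n + 1)) ≃ₗᵢ[ℝ] EuclideanSpace ℝ (Fin (n + 1)),
      ∀ z, (⟪T z, w⟫ : ℝ) = ‖w‖ * z (Fin.last n) := by
  have hw0 : ‖w‖ ≠ 0 := norm_ne_zero_iff.2 hw
  have ho : Orthonormal ℝ (({Fin.last n} : Set (Fin (n + 1))).domRestrict
      (fun _ => (‖w‖⁻¹ : ℝ) • w)) := by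
    refine ⟨fun i => ?_, fun i j hij => ?_⟩
    · simp only [Set.domRestrict_apply]
      rw [norm_smul, norm_inv, norm_norm, inv_mul_cancel₀ hw0]
    · exact absurd (Subsingleton.elim i j) hij
  obtain ⟨v, hv⟩ := ho.exists_orthonormalBasis_extension_of_card_eq (by simp)
  refine ⟨v.repr.symm, fun z => ?_⟩
  have h1 : w = ‖w‖ • v (Fin.last n) := by
    rw [hv _ (mem_singleton _), smul_smul, mul_inv_cancel₀ hw0, one_smul]
  have h2 : (⟪v.repr.symm z, v (Fin.last n)⟫ : ℝ) = z (Fin.last n) := by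
    rw [real_inner_comm, ← v.repr_apply_apply, LinearIsometryEquiv.apply_symm_apply]
  calc (⟪v.repr.symm z, w⟫ : ℝ) = ⟪v.repr.symm z, ‖w‖ • v (Fin.last n)⟫ := by rw [← h1]
    _ = _ := by rw [real_inner_smul_right, h2]

lemma Jb_eq (κ n : ℕ) (η : Fin (n + 1) → ℝ) (hη : η ≠ 0) :
    Jb κ (n + 1) η = ((Vk κ n : ℝ) : ℂ) *
      Mi (((n + 2 * κ : ℕ) : ℝ) / 2) 0 (-(2 * Real.pi * Real.sqrt (∑ i, η i ^ 2))) := by
  obtain ⟨w, hw⟩ : ∃ w : EuclideanSpace ℝ (Fin (n + 1)), w = WithLp.toLp 2 η := ⟨_, rfl⟩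
  have hwi : ∀ i, w i = η i := fun i => by rw [hw]
  have hw0 : w ≠ 0 := by
    intro h
    refine hη (funext fun i => ?_)
    rw [← hwi, h]
    rfl
  have hnw : ‖w‖ = Real.sqrt (∑ i, η i ^ 2) := by
    rw [EuclideanSpace.norm_eq]
    simp only [Real.norm_eq_abs, sq_abs, hwi]
  obtain ⟨T, hT⟩ := exists_rot n w hw0
  obtain ⟨Λ, hΛ⟩ : ∃ Λ, Λ = ‖w‖ := ⟨_, rfl⟩
  rw [← hnw, ← hΛ]
  -- pass to the Euclidean space
  obtain ⟨G, hG⟩ : ∃ G : EuclideanSpace ℝ (Fin (n + 1)) → ℂ, G = fun z => e (-(⟪z, w⟫ : ℝ)) *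
      ((qq κ (‖z‖ ^ 2) : ℝ) : ℂ) := ⟨_, rfl⟩
  have e1 : Jb κ (n + 1) η = ∫ z, G z := by
    unfold Jb
    rw [← (EuclideanSpace.volume_preserving_symm_measurableEquiv_toLp
      (Fin (n + 1))).integral_comp (MeasurableEquiv.measurableEmbedding _)]
    refine integral_congr_ae (Filter.Eventually.of_forall fun z => ?_)
    simp only [hG]
    have h1 : ∑ i, (MeasurableEquiv.toLp 2 (Fin (n + 1) → ℝ)).symm z i * η i = (⟪z, w⟫ : ℝ) := by
      rw [PiLp.inner_apply]
      refine Finset.sum_congr rfl fun i _ => ?_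
      rw [hwi, RCLike.inner_apply, conj_trivial, mul_comm]
      rfl
    have h2 : ‖z‖ ^ 2 = ∑ i, (MeasurableEquiv.toLp 2 (Fin (n + 1) → ℝ)).symm z i ^ 2 := by
      rw [EuclideanSpace.norm_eq, Real.sq_sqrt (Finset.sum_nonneg fun i _ => sq_nonneg _)]
      simp only [Real.norm_eq_abs, sq_abs]
      rfl
    rw [h1, h2]
    rfl
  have e2 : ∫ z, G z = ∫ z, G (T z) :=
    (T.measurePreserving.integral_comp T.toHomeomorph.measurableEmbedding G).symm
  obtain ⟨H, hH⟩ : ∃ H : ℝ × (Fin n → ℝ) → ℂ, H = fun q => e (-(Λ * q.1)) *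
      ((qq κ (q.1 ^ 2 + ∑ i, q.2 i ^ 2) : ℝ) : ℂ) := ⟨_, rfl⟩
  have e3 : ∫ z, G (T z) = ∫ q, H q := by
    rw [← (Zc_mp n).integral_comp (Zc n).measurableEmbedding]
    refine integral_congr_ae (Filter.Eventually.of_forall fun z => ?_)
    simp only [hG, hH]
    rw [hT, ← hΛ, LinearIsometryEquiv.norm_map, norm_Zc, Real.sq_sqrt
      (add_nonneg (sq_nonneg _) (Finset.sum_nonneg fun i _ => sq_nonneg _))]
    have h1 : (Zc n z).1 = z (Fin.last n) := by rw [Zc_apply]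
    rw [h1]
  have hHi : Integrable H := by
    rw [hH]
    have hS : MeasurableSet (Icc (-1 : ℝ) 1 ×ˢ Bl n) := measurableSet_Icc.prod (measurableSet_Bl n)
    have hSfin : (volume : Measure (ℝ × (Fin n → ℝ))) (Icc (-1 : ℝ) 1 ×ˢ Bl n) ≠ ∞ := by
      rw [Measure.volume_eq_prod, Measure.prod_prod, Real.volume_Icc]
      exact (ENNReal.mul_lt_top ENNReal.ofReal_lt_top (Bl_finite n)).ne
    have h0 : Integrable ((Icc (-1 : ℝ) 1 ×ˢ Bl n).indicator fun _ => (1 : ℝ)) := by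
      rw [integrable_indicator_iff hS]
      exact integrableOn_const hSfin
    have h1 : Integrable (fun q : ℝ × (Fin n → ℝ) => qq κ (q.1 ^ 2 + ∑ i, q.2 i ^ 2)) := by
      refine h0.mono' ((measurable_qq κ).comp (by fun_prop)).aestronglyMeasurable
        (Filter.Eventually.of_forall fun q => ?_)
      rw [Real.norm_of_nonneg (qq_nonneg _ _)]
      have h3 : 0 ≤ ∑ i, q.2 i ^ 2 := Finset.sum_nonneg fun i _ => sq_nonneg _
      by_cases hq : q ∈ Icc (-1 : ℝ) 1 ×ˢ Bl n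
      · rw [indicator_of_mem hq]
        exact qq_le_one _ _ (by positivity)
      · rw [indicator_of_notMem hq]
        refine (qq_of_gt _ _ ?_).le
        by_contra hcon
        push Not at hcon
        refine hq ⟨⟨?_, ?_⟩, ?_⟩
        · nlinarith
        · nlinarith
        · change ∑ i, q.2 i ^ 2 ≤ 1
          nlinarith [sq_nonneg q.1]
    refine Integrable.bdd_mul (c := 1) h1.ofReal ?_ ?_
    · exact (continuous_e.comp (by fun_prop)).aestronglyMeasurable
    · exact Filter.Eventually.of_forall fun q => (norm_e _).le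
  rw [e1, e2, e3, Measure.volume_eq_prod, integral_prod _ (by rwa [← Measure.volume_eq_prod])]
  -- the slices
  have e4 : ∀ x : ℝ, ∫ y : Fin n → ℝ, H (x, y) = e (-(Λ * x)) *
      ((∫ y : Fin n → ℝ, qq κ (x ^ 2 + ∑ i, y i ^ 2) : ℝ) : ℂ) := by
    intro x
    simp only [hH]
    rw [integral_const_mul, integral_complex_ofReal]
  simp only [e4]
  have e5 : ∀ᵐ x : ℝ, e (-(Λ * x)) *
      ((∫ y : Fin n → ℝ, qq κ (x ^ 2 + ∑ i, y i ^ 2) : ℝ) : ℂ) =
      (Ioc (-1 : ℝ) 1).indicator (fun x => ((Vk κ n : ℝ) : ℂ) *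
        (((wt (((n + 2 * κ : ℕ) : ℝ) / 2) 0 x : ℝ) : ℂ) * Ex (-(2 * Real.pi * Λ)) x)) x := by
    have h1 : ∀ᵐ x : ℝ, x ≠ 1 ∧ x ≠ -1 := by
      rw [ae_iff]
      refine measure_mono_null (t := {1, -1}) ?_ ?_
      · intro x hx
        simp only [Set.mem_ofPred_eq, not_and_or, not_not] at hx
        exact hx
      · exact (Set.toFinite _).measure_zero _
    filter_upwards [h1] with x hx
    by_cases h2 : x ∈ Ioc (-1 : ℝ) 1
    · rw [indicator_of_mem h2]
      have h3 : x < 1 := lt_of_le_of_ne h2.2 hx.1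
      have h4 : 0 < 1 - x ^ 2 := by nlinarith [h2.1]
      simp only [qq_scale κ (x ^ 2) _ h4]
      rw [integral_const_mul, int_sq κ n _ h4]
      have h6 : wt (((n + 2 * κ : ℕ) : ℝ) / 2) 0 x =
          (1 - x ^ 2) ^ κ * (1 - x ^ 2) ^ ((n : ℝ) / 2) := by
        unfold wt
        rw [pow_zero, one_mul, ← Real.rpow_natCast (1 - x ^ 2) κ, ← Real.rpow_add h4]
        congr 1
        push_cast
        ring
      rw [h6]
      unfold Ex e
      push_cast
      have h5 : (2 * (Real.pi : ℂ) * (-((Λ : ℂ) * (x : ℂ)))) * Complex.I =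
          (-(2 * (Real.pi : ℂ) * (Λ : ℂ)) * (x : ℂ)) * Complex.I := by ring
      rw [h5]
      ring
    · rw [indicator_of_notMem h2]
      have h3 : ∀ y : Fin n → ℝ, qq κ (x ^ 2 + ∑ i, y i ^ 2) = 0 := by
        intro y
        refine qq_of_gt _ _ ?_
        have h5 : 0 ≤ ∑ i, y i ^ 2 := Finset.sum_nonneg fun i _ => sq_nonneg _
        by_contra hcon
        push Not at hcon
        apply h2
        refine ⟨lt_of_le_of_ne ?_ (fun h => hx.2 h.symm), ?_⟩ <;> nlinarith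
      simp only [h3]
      simp
  rw [integral_congr_ae e5, integral_indicator measurableSet_Ioc, integral_const_mul]
  unfold Mi
  rw [intervalIntegral.integral_of_le (by norm_num)]

end Pool.Agent.T9h44.LS3
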