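import Pool.Agent.T9h44.LS3.P4

set_option autoImplicit false

/-!
# Ellipsoidal bumps
-/

namespace Pool.Agent.T9h44.LS3

open MeasureTheory Set
open scoped ENNReal RealInnerProductSpace Pointwise
open Pool.Agent.TH280.LS

/-- the exponent of the profile -/
noncomputable def bb (κ m : ℕ) : ℝ := ((m : ℝ) + 1 + 2 * κ) / (2 * m)

lemma bb_pos (κ m : ℕ) (hm : 0 < m) : 0 < bb κ m := by
  unfold bb
  have : (0 : ℝ) < m := Nat.cast_pos.2 hm
  positivity

theorem ball_decay (κ m : ℕ) (hm : 0 < m) : ∃ C : ℝ, 0 < C ∧ ∀ η : Fin m → ℝ,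
    ‖Jb κ m η‖ ≤ C * ∏ i, (1 + |η i|) ^ (-(bb κ m)) := by
  obtain ⟨n, rfl⟩ : ∃ n, m = n + 1 := ⟨m - 1, by omega⟩
  obtain ⟨C0, hC0, h0⟩ := decay (n + 2 * κ) 0
  obtain ⟨s, hs⟩ : ∃ s : ℝ, s = ((n + 2 * κ : ℕ) : ℝ) / 2 + 1 := ⟨_, rfl⟩
  have hs0 : 0 < s := by rw [hs]; positivity
  have hVn0 : 0 < Vk κ n := Vk_pos κ n
  have hVm0 : 0 < Vk κ (n + 1) := Vk_pos κ (n + 1)
  have hβ : bb κ (n + 1) * (n + 1 : ℕ) = s := by
    unfold bb
    rw [hs]
    push_cast
    field_simp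
    ring
  have hβ0 : 0 < bb κ (n + 1) := bb_pos κ _ (by omega)
  refine ⟨(Vk κ n * C0 + Vk κ (n + 1)) * 2 ^ s, by positivity, ?_⟩
  intro η
  obtain ⟨Λ, hΛ⟩ : ∃ Λ, Λ = Real.sqrt (∑ i, η i ^ 2) := ⟨_, rfl⟩
  have hΛ0 : 0 ≤ Λ := by rw [hΛ]; exact Real.sqrt_nonneg _
  have hle : ∀ i, |η i| ≤ Λ := by
    intro i
    rw [hΛ, ← Real.sqrt_sq_eq_abs]
    exact Real.sqrt_le_sqrt (Finset.single_le_sum (f := fun j => η j ^ 2)
      (fun j _ => sq_nonneg _) (Finset.mem_univ i))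
  have hprod : (1 + Λ) ^ (-s) ≤ ∏ i, (1 + |η i|) ^ (-(bb κ (n + 1))) := by
    calc (1 + Λ) ^ (-s) = ∏ _i : Fin (n + 1), (1 + Λ) ^ (-(bb κ (n + 1))) := by
          rw [Finset.prod_const, Finset.card_univ, Fintype.card_fin, ← Real.rpow_natCast,
            ← Real.rpow_mul (by positivity), neg_mul, hβ]
      _ ≤ _ := by
          refine Finset.prod_le_prod (fun i _ => by positivity) fun i _ => ?_
          exact Real.rpow_le_rpow_of_nonpos (by positivity) (by linarith [hle i]) (by linarith)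
  have hmain : ‖Jb κ (n + 1) η‖ ≤ (Vk κ n * C0 + Vk κ (n + 1)) * 2 ^ s * (1 + Λ) ^ (-s) := by
    have hpi := Real.pi_gt_three
    by_cases hc : 1 ≤ 2 * Real.pi * Λ
    · have hη : η ≠ 0 := by
        rintro rfl
        rw [hΛ] at hc
        simp at hc
        linarith
      rw [Jb_eq κ n η hη, norm_mul, Complex.norm_real, Real.norm_of_nonneg hVn0.le, ← hΛ]
      have h1 := h0 (-(2 * Real.pi * Λ)) (by rwa [abs_neg, abs_of_nonneg (by positivity)])
      rw [abs_neg, abs_of_nonneg (by positivity), ← hs] at h1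
      have h2 : (2 * Real.pi * Λ) ^ (-s) ≤ 2 ^ s * (1 + Λ) ^ (-s) := by
        have h3 : (1 + Λ) / 2 ≤ 2 * Real.pi * Λ := by nlinarith
        calc (2 * Real.pi * Λ) ^ (-s) ≤ ((1 + Λ) / 2) ^ (-s) :=
              Real.rpow_le_rpow_of_nonpos (by positivity) h3 (by linarith)
          _ = 2 ^ s * (1 + Λ) ^ (-s) := by
              rw [Real.div_rpow (by positivity) (by norm_num), Real.rpow_neg (by norm_num : (0:ℝ) ≤ 2),
                div_inv_eq_mul, mul_comm]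
      calc Vk κ n * ‖Mi (((n + 2 * κ : ℕ) : ℝ) / 2) 0 (-(2 * Real.pi * Λ))‖
          ≤ Vk κ n * (C0 * (2 ^ s * (1 + Λ) ^ (-s))) :=
            mul_le_mul_of_nonneg_left (h1.trans (mul_le_mul_of_nonneg_left h2 hC0.le)) hVn0.le
        _ = (Vk κ n * C0) * (2 ^ s * (1 + Λ) ^ (-s)) := by ring
        _ ≤ (Vk κ n * C0 + Vk κ (n + 1)) * (2 ^ s * (1 + Λ) ^ (-s)) :=
            mul_le_mul_of_nonneg_right (by linarith) (by positivity)
        _ = _ := by ring
    · have h3 : 1 + Λ ≤ 2 := by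
        push Not at hc
        nlinarith
      have h4 : 1 ≤ 2 ^ s * (1 + Λ) ^ (-s) := by
        have h5 : (2 : ℝ) ^ (-s) ≤ (1 + Λ) ^ (-s) :=
          Real.rpow_le_rpow_of_nonpos (by positivity) h3 (by linarith)
        calc (1 : ℝ) = 2 ^ s * 2 ^ (-s) := by
              rw [← Real.rpow_add (by norm_num), add_neg_cancel, Real.rpow_zero]
          _ ≤ _ := mul_le_mul_of_nonneg_left h5 (by positivity)
      calc ‖Jb κ (n + 1) η‖ ≤ Vk κ (n + 1) := norm_Jb_le _ _ _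
        _ ≤ (Vk κ n * C0 + Vk κ (n + 1)) * 1 := by nlinarith [mul_pos hVn0 hC0]
        _ ≤ (Vk κ n * C0 + Vk κ (n + 1)) * (2 ^ s * (1 + Λ) ^ (-s)) :=
            mul_le_mul_of_nonneg_left h4 (by positivity)
        _ = _ := by ring
  exact hmain.trans (mul_le_mul_of_nonneg_left hprod (by positivity))

/-- scaling of the coordinates -/
lemma int_diag {m : ℕ} (r : Fin m → ℝ) (hr : ∀ i, 0 < r i) (f : (Fin m → ℝ) → ℂ) :
    ∫ y : Fin m → ℝ, f y = ((∏ i, r i : ℝ) : ℂ) * ∫ u : Fin m → ℝ, f (fun i => r i * u i) := by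
  have hp : 0 < ∏ i, r i := Finset.prod_pos fun i _ => hr i
  have hdet : (Matrix.diagonal r).det = ∏ i, r i := Matrix.det_diagonal
  have h1 := Real.smul_map_diagonal_volume_pi (D := r) (by rw [hdet]; exact hp.ne')
  rw [hdet, abs_of_pos hp] at h1
  have h2 : (⇑(Matrix.toLin' (Matrix.diagonal r)) : (Fin m → ℝ) → (Fin m → ℝ)) =
      ⇑(MeasurableEquiv.piCongrRight fun i => MeasurableEquiv.mulLeft₀ (r i) (hr i).ne') := by
    funext u i
    rw [Matrix.toLin'_apply, Matrix.mulVec_diagonal]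
    rfl
  rw [h2] at h1
  calc ∫ y : Fin m → ℝ, f y = ∫ y, f y ∂(ENNReal.ofReal (∏ i, r i) • Measure.map
        (⇑(MeasurableEquiv.piCongrRight fun i => MeasurableEquiv.mulLeft₀ (r i) (hr i).ne'))
        (volume : Measure (Fin m → ℝ))) := by rw [h1]
    _ = _ := by
      rw [integral_smul_measure, (MeasurableEquiv.measurableEmbedding _).integral_map,
        ENNReal.toReal_ofReal hp.le, Complex.real_smul]
      rfl

/-- `(1 - |y - b|_r ^ 2) ^ κ` on the ellipsoid `|y - b|_r ≤ 1`, where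
`|y - b|_r ^ 2 = ∑ ((y_i - b_i) / r_i) ^ 2` -/
noncomputable def El {m : ℕ} (κ : ℕ) (b r y : Fin m → ℝ) : ℝ := qq κ (∑ i, ((y i - b i) / r i) ^ 2)

lemma measurable_El {m : ℕ} (κ : ℕ) (b r : Fin m → ℝ) : Measurable (El κ b r) := by
  unfold El
  exact (measurable_qq κ).comp (by fun_prop)

lemma El_scale {m : ℕ} (κ : ℕ) (b r : Fin m → ℝ) (hr : ∀ i, 0 < r i) (u : Fin m → ℝ) :
    El κ b r ((fun i => r i * u i) + b) = bp κ m u := by
  unfold El bp
  congr 1
  refine Finset.sum_congr rfl fun i _ => ?_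
  rw [Pi.add_apply, add_sub_cancel_right, mul_div_cancel_left₀ _ (hr i).ne']

/-- the Fourier transform of an ellipsoidal bump -/
lemma El_ft {m : ℕ} (κ : ℕ) (b r : Fin m → ℝ) (hr : ∀ i, 0 < r i) (η : Fin m → ℝ) :
    ∫ y : Fin m → ℝ, e (-(∑ i, y i * η i)) * ((El κ b r y : ℝ) : ℂ) =
      e (-(∑ i, b i * η i)) * (((∏ i, r i : ℝ) : ℂ) * Jb κ m (fun i => r i * η i)) := by
  rw [← integral_add_right_eq_self (fun y : Fin m → ℝ => e (-(∑ i, y i * η i)) *
    ((El κ b r y : ℝ) : ℂ)) b, int_diag r hr]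
  unfold Jb
  rw [← mul_assoc, mul_comm (e _), mul_assoc]
  congr 1
  rw [← integral_const_mul]
  refine integral_congr_ae (Filter.Eventually.of_forall fun u => ?_)
  simp only
  rw [El_scale κ b r hr]
  have h1 : -(∑ i, ((fun i => r i * u i) + b) i * η i) =
      -(∑ i, b i * η i) + -(∑ i, u i * (r i * η i)) := by
    rw [← neg_add, ← Finset.sum_add_distrib]
    congr 1
    refine Finset.sum_congr rfl fun i _ => ?_
    rw [Pi.add_apply]
    ring
  rw [h1, e_add, mul_assoc]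

lemma Jb_zero (κ m : ℕ) : Jb κ m 0 = ((Vk κ m : ℝ) : ℂ) := by
  unfold Jb Vk
  rw [← integral_complex_ofReal]
  refine integral_congr_ae (Filter.Eventually.of_forall fun y => ?_)
  simp only [Pi.zero_apply, mul_zero, Finset.sum_const_zero, neg_zero, e_zero, one_mul]

lemma El_vol {m : ℕ} (κ : ℕ) (b r : Fin m → ℝ) (hr : ∀ i, 0 < r i) :
    ∫ y : Fin m → ℝ, El κ b r y = (∏ i, r i) * Vk κ m := by
  have h1 := El_ft κ b r hr 0
  have h3 : (fun i => r i * (0 : Fin m → ℝ) i) = 0 := by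
    funext i
    simp
  rw [h3, Jb_zero] at h1
  simp only [Pi.zero_apply, mul_zero, Finset.sum_const_zero, neg_zero, e_zero, one_mul] at h1
  rw [integral_complex_ofReal] at h1
  exact_mod_cast h1

/-- **Ellipsoidal bumps are bumps.** -/
theorem El_bump (κ m : ℕ) (hm : 0 < m) : ∃ B : ℝ, 0 < B ∧ ∀ (b r c : Fin m → ℝ), (∀ i, 0 < r i) →
    ∑ i, ((c i - b i) / r i) ^ 2 ≤ 1 → Bump m (bb κ m) B c (fun i => 2 * r i) (El κ b r) := by
  obtain ⟨C, hC, h⟩ := ball_decay κ m hm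
  have hV0 := Vk_pos κ m
  have hβ0 := bb_pos κ m hm
  refine ⟨C * (2 ^ (bb κ m)) ^ m / Vk κ m, by positivity, ?_⟩
  intro b r c hr hc
  refine ⟨fun i => by have := hr i; positivity, fun y => qq_nonneg _ _, fun η => ?_⟩
  have hp : 0 < ∏ i, r i := Finset.prod_pos fun i _ => hr i
  have hin : ∀ y : Fin m → ℝ, ∑ i, ((y i - b i) / r i) ^ 2 ≤ 1 → ∀ i, |y i - b i| ≤ r i := by
    intro y hy i
    have h1 : ((y i - b i) / r i) ^ 2 ≤ ∑ j, ((y j - b j) / r j) ^ 2 :=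
      Finset.single_le_sum (f := fun j => ((y j - b j) / r j) ^ 2) (fun j _ => sq_nonneg _)
        (Finset.mem_univ i)
    have h2 : ((y i - b i) / r i) ^ 2 ≤ 1 := h1.trans hy
    rw [sq_le_one_iff_abs_le_one, abs_div, abs_of_pos (hr i), div_le_one (hr i)] at h2
    exact h2
  have hmass : ∫ y in {y : Fin m → ℝ | ∀ i, |y i - c i| ≤ 2 * r i}, El κ b r y =
      (∏ i, r i) * Vk κ m := by
    rw [← El_vol κ b r hr]
    refine setIntegral_eq_integral_of_forall_compl_eq_zero fun y hy => ?_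
    refine qq_of_gt _ _ ?_
    by_contra hcon
    push Not at hcon
    refine hy fun i => ?_
    have h1 := hin y hcon i
    have h2 := hin c hc i
    calc |y i - c i| = |(y i - b i) - (c i - b i)| := by congr 1; ring
      _ ≤ |y i - b i| + |c i - b i| := abs_sub _ _
      _ ≤ 2 * r i := by linarith
  have h1 := El_ft κ b r hr η
  unfold e at h1
  rw [h1, hmass, norm_mul, norm_mul, Complex.norm_exp_ofReal_mul_I, one_mul, Complex.norm_real,
    Real.norm_of_nonneg hp.le]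
  have h2 := h (fun i => r i * η i)
  have h3 : ∏ i, (1 + |r i * η i|) ^ (-(bb κ m)) ≤
      (2 ^ (bb κ m)) ^ m * ∏ i, (1 + 2 * r i * |η i|) ^ (-(bb κ m)) := by
    have h4 : ((2 : ℝ) ^ (bb κ m)) ^ m = ∏ _i : Fin m, (2 : ℝ) ^ (bb κ m) := by
      rw [Finset.prod_const, Finset.card_univ, Fintype.card_fin]
    rw [h4, ← Finset.prod_mul_distrib]
    refine Finset.prod_le_prod (fun i _ => by positivity) fun i _ => ?_
    have h5 : 0 ≤ r i * |η i| := mul_nonneg (hr i).le (abs_nonneg _)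
    rw [abs_mul, abs_of_pos (hr i)]
    have h6 : (1 + 2 * r i * |η i|) / 2 ≤ 1 + r i * |η i| := by linarith
    calc (1 + r i * |η i|) ^ (-(bb κ m)) ≤ ((1 + 2 * r i * |η i|) / 2) ^ (-(bb κ m)) :=
          Real.rpow_le_rpow_of_nonpos (by nlinarith) h6 (by linarith)
      _ = 2 ^ (bb κ m) * (1 + 2 * r i * |η i|) ^ (-(bb κ m)) := by
          rw [Real.div_rpow (by nlinarith) (by norm_num), Real.rpow_neg (by norm_num : (0:ℝ) ≤ 2),
            div_inv_eq_mul, mul_comm]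
  calc (∏ i, r i) * ‖Jb κ m (fun i => r i * η i)‖
      ≤ (∏ i, r i) * (C * ((2 ^ (bb κ m)) ^ m * ∏ i, (1 + 2 * r i * |η i|) ^ (-(bb κ m)))) :=
        mul_le_mul_of_nonneg_left (h2.trans (mul_le_mul_of_nonneg_left h3 hC.le)) hp.le
    _ = C * (2 ^ (bb κ m)) ^ m / Vk κ m * (∏ i, (1 + 2 * r i * |η i|) ^ (-(bb κ m))) *
          ((∏ i, r i) * Vk κ m) := by
        field_simp

end Pool.Agent.T9h44.LS3
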