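import Pool.Agent.T9h44.LS3.P5

set_option autoImplicit false

/-!
# Mixtures of ellipsoidal bumps and radially decreasing functions
-/

namespace Pool.Agent.T9h44.LS3

open MeasureTheory Set
open scoped ENNReal RealInnerProductSpace Pointwise
open Pool.Agent.TH280.LS

/-- `g` is a mixture of ellipsoidal bumps with a common point -/
def Ellipsoids (κ m : ℕ) (g : (Fin m → ℝ) → ℝ≥0∞) : Prop :=
  ∃ (Ω : Type) (_ : MeasurableSpace Ω) (μ : Measure Ω) (_ : SFinite μ) (b r : Ω → Fin m → ℝ)
    (c : Fin m → ℝ), Measurable b ∧ Measurable r ∧ (∀ ω i, 0 < r ω i) ∧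
    (∀ ω, ∑ i, ((c i - b ω i) / r ω i) ^ 2 ≤ 1) ∧
    ∀ y, g y = ∫⁻ ω, ENNReal.ofReal (El κ (b ω) (r ω) y) ∂μ

/-- `g` is radially decreasing about a point -/
def RadDecr (m : ℕ) (g : (Fin m → ℝ) → ℝ≥0∞) : Prop :=
  ∃ c : Fin m → ℝ, ∀ y y' : Fin m → ℝ, ∑ i, (y i - c i) ^ 2 ≤ ∑ i, (y' i - c i) ^ 2 → g y' ≤ g y

theorem ellipsoids_mixture (κ m : ℕ) (hm : 0 < m) : ∃ B : ℝ, 0 < B ∧
    ∀ g : (Fin m → ℝ) → ℝ≥0∞, Ellipsoids κ m g → Mixture m (bb κ m) B g := by
  obtain ⟨B, hB, h⟩ := El_bump κ m hm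
  refine ⟨B, hB, ?_⟩
  rintro g ⟨Ω, mΩ, μ, hμ, b, r, c, hb, hr, hr0, hc, hg⟩
  refine ⟨Ω, mΩ, μ, hμ, fun ω => El κ (b ω) (r ω), fun ω i => 2 * r ω i, c, ?_,
    fun ω => h (b ω) (r ω) c (hr0 ω) (hc ω), hg⟩
  unfold El
  refine (measurable_qq κ).comp (Finset.measurable_fun_sum _ fun i _ => ?_)
  have h1 : Measurable fun q : Ω × (Fin m → ℝ) => q.2 i := (measurable_pi_apply i).comp measurable_snd
  have h2 : Measurable fun q : Ω × (Fin m → ℝ) => b q.1 i :=
    (measurable_pi_apply i).comp (hb.comp measurable_fst)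
  have h3 : Measurable fun q : Ω × (Fin m → ℝ) => r q.1 i :=
    (measurable_pi_apply i).comp (hr.comp measurable_fst)
  exact ((h1.sub h2).div h3).pow_const 2

lemma layer (t : ℝ≥0∞) : ∫⁻ l in Ioi (0 : ℝ), ENNReal.ofReal (if ENNReal.ofReal l < t then 1 else 0) =
    t := by
  have hm : MeasurableSet {l : ℝ | ENNReal.ofReal l < t} :=
    measurableSet_lt ENNReal.measurable_ofReal measurable_const
  have h1 : ∀ l : ℝ, ENNReal.ofReal (if ENNReal.ofReal l < t then 1 else 0) =
      ({l : ℝ | ENNReal.ofReal l < t}).indicator (fun _ => (1 : ℝ≥0∞)) l := by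
    intro l
    by_cases h : ENNReal.ofReal l < t
    · rw [if_pos h, indicator_of_mem (show l ∈ {l : ℝ | ENNReal.ofReal l < t} from h),
        ENNReal.ofReal_one]
    · rw [if_neg h, indicator_of_notMem (show l ∉ {l : ℝ | ENNReal.ofReal l < t} from h),
        ENNReal.ofReal_zero]
  simp only [h1]
  rw [lintegral_indicator_const hm, one_mul, Measure.restrict_apply hm]
  by_cases ht : t = ∞
  · have h2 : {l : ℝ | ENNReal.ofReal l < t} ∩ Ioi 0 = Ioi 0 := by
      ext l
      simp [ht]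
    rw [h2, Real.volume_Ioi, ht]
  · have h2 : {l : ℝ | ENNReal.ofReal l < t} ∩ Ioi 0 = Ioo 0 t.toReal := by
      ext l
      simp only [mem_inter_iff, Set.mem_ofPred_eq, mem_Ioi, mem_Ioo]
      constructor
      · rintro ⟨h3, h4⟩
        exact ⟨h4, (ENNReal.ofReal_lt_iff_lt_toReal h4.le ht).1 h3⟩
      · rintro ⟨h3, h4⟩
        exact ⟨(ENNReal.ofReal_lt_iff_lt_toReal h3.le ht).2 h4, h3⟩
    rw [h2, Real.volume_Ioo, sub_zero, ENNReal.ofReal_toReal ht]

lemma sphere_null {m : ℕ} (c : Fin m → ℝ) (ρ : ℝ) (hρ : 0 < ρ) :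
    volume {y : Fin m → ℝ | ∑ i, (y i - c i) ^ 2 = ρ} = 0 := by
  have h1 : {y : Fin m → ℝ | ∑ i, (y i - c i) ^ 2 = ρ} = (MeasurableEquiv.toLp 2 (Fin m → ℝ)) ⁻¹'
      Metric.sphere (WithLp.toLp 2 c) (Real.sqrt ρ) := by
    ext y
    rw [mem_preimage, mem_sphere_iff_norm, EuclideanSpace.norm_eq,
      Real.sqrt_inj (Finset.sum_nonneg fun i _ => sq_nonneg _) hρ.le]
    simp only [Real.norm_eq_abs, sq_abs, Set.mem_ofPred_eq]
    rfl
  have h2 := (EuclideanSpace.volume_preserving_symm_measurableEquiv_toLp (Fin m)).symm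
  rw [h1]
  have h3 := h2.measure_preimage_equiv (Metric.sphere (WithLp.toLp 2 c) (Real.sqrt ρ))
  rw [MeasurableEquiv.symm_symm] at h3
  rw [h3]
  exact Measure.addHaar_sphere_of_ne_zero _ _ (Real.sqrt_pos.2 hρ).ne'

theorem radDecr_mixture (m : ℕ) (hm : 0 < m) : ∃ B : ℝ, 0 < B ∧
    ∀ g : (Fin m → ℝ) → ℝ≥0∞, RadDecr m g → Mixture m (bb 0 m) B g := by
  obtain ⟨B, hB, h⟩ := El_bump 0 m hm
  refine ⟨B, hB, ?_⟩
  rintro g ⟨c, hg⟩
  obtain ⟨q, hq⟩ : ∃ q : (Fin m → ℝ) → ℝ, q = fun y => ∑ i, (y i - c i) ^ 2 := ⟨_, rfl⟩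
  have hgq : ∀ y y', q y ≤ q y' → g y' ≤ g y := by
    intro y y' hy
    rw [hq] at hy
    exact hg y y' hy
  have hqm : Measurable q := by
    rw [hq]
    fun_prop
  have hq0 : ∀ y, 0 ≤ q y := fun y => by
    rw [hq]
    exact Finset.sum_nonneg fun i _ => sq_nonneg _
  -- measurability
  have hgm : Measurable g := by
    obtain ⟨G, hG⟩ : ∃ G : ℝ → ℝ≥0∞, G = fun s => ⨆ (y : Fin m → ℝ) (_ : s ≤ q y), g y := ⟨_, rfl⟩
    have hanti : Antitone G := by
      intro s s' hs
      rw [hG]
      exact iSup₂_le fun y hy => le_iSup₂ (f := fun (y : Fin m → ℝ) (_ : s ≤ q y) => g y) y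
        (hs.trans hy)
    have hGq : g = fun y => G (q y) := by
      funext y
      rw [hG]
      refine le_antisymm (le_iSup₂ (f := fun (y' : Fin m → ℝ) (_ : q y ≤ q y') => g y') y le_rfl) ?_
      exact iSup₂_le fun y' hy' => hgq y y' hy'
    rw [hGq]
    exact hanti.measurable.comp hqm
  have hnn : ∀ (l : ℝ) (y : Fin m → ℝ), (0 : ℝ) ≤ if ENNReal.ofReal l < g y then 1 else 0 := by
    intro l y
    split_ifs
    · exact zero_le_one
    · exact le_rfl
  -- every superlevel set is a bump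
  have key : ∀ l : ℝ, ∃ a : Fin m → ℝ, Bump m (bb 0 m) B c a
      (fun y => if ENNReal.ofReal l < g y then 1 else 0) := by
    intro l
    have hzero : ∀ φ : (Fin m → ℝ) → ℝ, (∀ y, 0 ≤ φ y) → (∀ η : Fin m → ℝ,
        ∫ y : Fin m → ℝ, Complex.exp (((2 * Real.pi * (-(∑ i, y i * η i)) : ℝ) : ℂ) * Complex.I) *
          ((φ y : ℝ) : ℂ) = 0) → Bump m (bb 0 m) B c 0 φ := by
      intro φ h0 h1
      refine ⟨fun i => le_rfl, h0, fun η => ?_⟩
      rw [h1, norm_zero]
      refine mul_nonneg (mul_nonneg hB.le (Finset.prod_nonneg fun i _ => ?_))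
        (setIntegral_nonneg_of_ae_restrict (Filter.Eventually.of_forall h0))
      simp
    by_cases hbd : BddAbove (q '' {y | ENNReal.ofReal l < g y})
    · obtain ⟨ρ, hρ⟩ : ∃ ρ, ρ = sSup (q '' {y | ENNReal.ofReal l < g y}) := ⟨_, rfl⟩
      have hup : ∀ y, ENNReal.ofReal l < g y → q y ≤ ρ := by
        intro y hy
        rw [hρ]
        exact le_csSup hbd ⟨y, hy, rfl⟩
      by_cases hρ0 : 0 < ρ
      · -- the superlevel set is a ball
        have hne : (q '' {y | ENNReal.ofReal l < g y}).Nonempty := by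
          by_contra hcon
          rw [Set.not_nonempty_iff_eq_empty] at hcon
          rw [hcon, Real.sSup_empty] at hρ
          exact hρ0.ne' hρ
        have hlow : ∀ y, q y < ρ → ENNReal.ofReal l < g y := by
          intro y hy
          rw [hρ] at hy
          obtain ⟨_, ⟨y', hy', rfl⟩, h2⟩ := exists_lt_of_lt_csSup hne hy
          exact lt_of_lt_of_le hy' (hgq y y' h2.le)
        have hs0 : 0 < Real.sqrt ρ := Real.sqrt_pos.2 hρ0
        have hEl : (fun y => El 0 c (fun _ => Real.sqrt ρ) y) =ᵐ[volume]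
            fun y => if ENNReal.ofReal l < g y then 1 else 0 := by
          have h1 : ∀ᵐ y : Fin m → ℝ, q y ≠ ρ := by
            rw [ae_iff]
            simp only [not_not, hq]
            exact sphere_null c ρ hρ0
          filter_upwards [h1] with y hy
          have h2 : ∑ i, ((y i - c i) / Real.sqrt ρ) ^ 2 = q y / ρ := by
            simp only [div_pow, Real.sq_sqrt hρ0.le]
            rw [← Finset.sum_div, hq]
          unfold El qq
          rw [h2, pow_zero]
          have h5 : q y / ρ ≤ 1 ↔ q y ≤ ρ := div_le_one hρ0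
          rcases lt_or_gt_of_ne hy with h3 | h3
          · rw [if_pos (h5.2 h3.le), if_pos (hlow y h3)]
          · rw [if_neg fun h4 => absurd (h5.1 h4) (not_le.2 h3),
              if_neg fun h4 => absurd (hup y h4) (not_le.2 h3)]
        obtain ⟨h1, -, h3⟩ := h c (fun _ => Real.sqrt ρ) c (fun _ => hs0) (by simp)
        refine ⟨_, h1, hnn l, fun η => ?_⟩
        have h4 := h3 η
        have e1 : ∫ y : Fin m → ℝ, Complex.exp (((2 * Real.pi * (-(∑ i, y i * η i)) : ℝ) : ℂ) *
              Complex.I) * (((if ENNReal.ofReal l < g y then 1 else 0 : ℝ)) : ℂ) =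
            ∫ y : Fin m → ℝ, Complex.exp (((2 * Real.pi * (-(∑ i, y i * η i)) : ℝ) : ℂ) *
              Complex.I) * ((El 0 c (fun _ => Real.sqrt ρ) y : ℝ) : ℂ) := by
          refine integral_congr_ae ?_
          filter_upwards [hEl] with y hy
          rw [← hy]
        have e2 : ∫ y in {y : Fin m → ℝ | ∀ i, |y i - c i| ≤ 2 * Real.sqrt ρ},
              (if ENNReal.ofReal l < g y then (1 : ℝ) else 0) =
            ∫ y in {y : Fin m → ℝ | ∀ i, |y i - c i| ≤ 2 * Real.sqrt ρ},
              El 0 c (fun _ => Real.sqrt ρ) y :=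
          integral_congr_ae (ae_restrict_of_ae hEl.symm)
        rw [e1, e2]
        exact h4
      · -- a null set
        refine ⟨0, hzero _ (hnn l) fun η => ?_⟩
        have h1 : ∀ᵐ y : Fin m → ℝ, y ≠ c := by
          have : Nonempty (Fin m) := ⟨⟨0, hm⟩⟩
          rw [ae_iff]
          simp
        refine integral_eq_zero_of_ae ?_
        filter_upwards [h1] with y hy
        have h2 : ¬ ENNReal.ofReal l < g y := by
          intro h3
          have h4 : q y ≤ 0 := (hup y h3).trans (not_lt.1 hρ0)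
          apply hy
          have h5 : ∑ i, (y i - c i) ^ 2 = 0 := by
            have := le_antisymm h4 (hq0 y)
            rwa [hq] at this
          rw [Finset.sum_eq_zero_iff_of_nonneg fun i _ => sq_nonneg _] at h5
          funext i
          have := h5 i (Finset.mem_univ i)
          have h6 := pow_eq_zero_iff (two_ne_zero) |>.1 this
          linarith
        rw [if_neg h2]
        simp
    · -- the whole space
      refine ⟨0, hzero _ (hnn l) fun η => ?_⟩
      have h1 : ∀ y, ENNReal.ofReal l < g y := by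
        intro y
        rw [not_bddAbove_iff] at hbd
        obtain ⟨_, ⟨y', hy', rfl⟩, h2⟩ := hbd (q y)
        exact lt_of_lt_of_le hy' (hgq y y' h2.le)
      refine integral_undef fun hi => ?_
      have h2 : Integrable (fun _ : Fin m → ℝ => (1 : ℝ)) := by
        refine (hi.norm).congr (Filter.Eventually.of_forall fun y => ?_)
        simp only
        rw [if_pos (h1 y), norm_mul, Complex.norm_exp_ofReal_mul_I]
        simp
      rw [integrable_const_iff] at h2
      rcases h2 with h2 | h2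
      · exact one_ne_zero h2
      · have : Nonempty (Fin m) := ⟨⟨0, hm⟩⟩
        have : NoncompactSpace (Fin m → ℝ) := NormedSpace.noncompactSpace ℝ _
        exact absurd (measure_univ_of_isAddLeftInvariant (volume : Measure (Fin m → ℝ)))
          (measure_ne_top volume univ)
  choose a ha using key
  refine ⟨ℝ, inferInstance, volume.restrict (Ioi 0), inferInstance,
    fun l y => if ENNReal.ofReal l < g y then 1 else 0, a, c, ?_, ha, fun y => (layer (g y)).symm⟩
  exact Measurable.ite (measurableSet_lt (ENNReal.measurable_ofReal.comp measurable_fst)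
    (hgm.comp measurable_snd)) measurable_const measurable_const

end Pool.Agent.T9h44.LS3
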